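import Mathlib

set_option autoImplicit false

namespace Pool.Agent.Results.MP_c4712b_ag.ManyNodesFamily

open MvPolynomial

/-- Polynomials in three variables over `ℂ`. -/
abbrev Poly3 : Type := MvPolynomial (Fin 3) ℂ

/-- `a` is a singular point of the surface `p = 0` (Jacobian criterion; `p` is used below only when
it is irreducible, so that it generates the ideal of its zero set). -/
def IsSingularPt (p : Poly3) (a : Fin 3 → ℂ) : Prop :=
  eval a p = 0 ∧ ∀ i : Fin 3, eval a (pderiv i p) = 0

/-- `a` is an isolated point of the singular locus of `p = 0`: it is singular and some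
Euclidean neighbourhood of it contains no other singular point. -/
def IsIsolatedSingularPt (p : Poly3) (a : Fin 3 → ℂ) : Prop :=
  IsSingularPt p a ∧ ∃ U ∈ nhds a, ∀ b ∈ U, b ≠ a → ¬ IsSingularPt p b

/-- `q` is quasihomogeneous: there are positive integers `w i` and an integer `d` with
`q (t ^ w 0 * x 0, t ^ w 1 * x 1, t ^ w 2 * x 2) = t ^ d * q x` for all nonzero `t` and all `x`. -/
def IsQuasihomogeneous (q : Poly3) : Prop :=
  ∃ w : Fin 3 → ℕ, (∀ i, 0 < w i) ∧ ∃ d : ℤ, ∀ t : ℂ, t ≠ 0 → ∀ x : Fin 3 → ℂ,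
    eval (fun i => t ^ (w i) * x i) q = t ^ d * eval x q

/-- The polynomial `f(x_0) * x_2 - x_1 ^ k`. -/
noncomputable def surf (f : Polynomial ℂ) (k : ℕ) : Poly3 :=
  Polynomial.aeval (X 0 : Poly3) f * X 2 - X 1 ^ k

/-- The coordinate ring `ℂ[x_0, x_1, x_2] / (p)` of the surface `p = 0`. -/
abbrev CoordRing (p : Poly3) : Type := Poly3 ⧸ Ideal.span {p}

noncomputable section

/-- chain rule -/
lemma pderiv_aeval (F : Fin 3 → Poly3) (p : Poly3) (i : Fin 3) :
    pderiv i (aeval F p) = ∑ j, aeval F (pderiv j p) * pderiv i (F j) := by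
  induction p using MvPolynomial.induction_on with
  | C a => simp
  | add p q hp hq =>
    simp only [map_add, hp, hq, add_mul, Finset.sum_add_distrib]
  | mul_X p k hp =>
    simp only [map_mul, aeval_X, Derivation.leibniz, smul_eq_mul, map_add, hp, add_mul,
      Finset.sum_add_distrib, Finset.mul_sum]
    congr 1
    · have h : ∀ j : Fin 3, aeval F p * aeval F (pderiv j (X k : Poly3)) *
          pderiv i (F j) = if j = k then aeval F p * pderiv i (F k) else 0 := by
        intro j
        by_cases hjk : j = k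
        · subst hjk; simp
        · rw [pderiv_X_of_ne (Ne.symm hjk)]; simp [hjk]
      rw [Finset.sum_congr rfl (fun j _ => h j)]
      simp
    · apply Finset.sum_congr rfl
      intro j _
      ring

lemma eval_aeval (x : Fin 3 → ℂ) (F : Fin 3 → Poly3) (g : Poly3) :
    eval x (aeval F g) = eval (fun i => eval x (F i)) g := by
  induction g using MvPolynomial.induction_on with
  | C a => simp
  | add p q hp hq => simp only [map_add, hp, hq]
  | mul_X p i hp => simp only [map_mul, hp, aeval_X, eval_X]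

/-- A quasihomogeneous polynomial with a nonzero singular point has infinitely many. -/
lemma qh_sing {q : Poly3} (hq : IsQuasihomogeneous q) (a : Fin 3 → ℂ) (ha : a ≠ 0)
    (hs : IsSingularPt q a) : Set.Infinite {b : Fin 3 → ℂ | IsSingularPt q b} := by
  obtain ⟨w, hw, d, h⟩ := hq
  obtain ⟨k, hk⟩ : ∃ k, a k ≠ 0 := by
    by_contra hcon
    push Not at hcon
    exact ha (funext hcon)
  -- scaled points are singular
  have hsc : ∀ t : ℂ, t ≠ 0 → IsSingularPt q (fun i => t ^ (w i) * a i) := by
    intro t ht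
    have hpoly : aeval (fun i => C (t ^ (w i)) * X i) q = C (t ^ d) * q := by
      apply MvPolynomial.funext
      intro x
      rw [eval_aeval, map_mul, eval_C, ← h t ht x]
      congr 2
      funext i
      simp
    refine ⟨by rw [h t ht, hs.1, mul_zero], fun i => ?_⟩
    have h1 := congrArg (fun g => eval a (pderiv i g)) hpoly
    simp only [pderiv_aeval, map_sum, map_mul, Derivation.leibniz, smul_eq_mul, pderiv_C, mul_zero,
      add_zero, eval_aeval, eval_C, eval_X, hs.2 i] at h1
    rw [Finset.sum_eq_single i] at h1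
    · simp only [pderiv_X_self, map_one, mul_one] at h1
      have hne : (t ^ (w i) : ℂ) ≠ 0 := pow_ne_zero _ ht
      simpa [hne, hs.2 i] using h1
    · intro j _ hji
      rw [pderiv_X_of_ne hji]
      simp
    · intro hi; exact absurd (Finset.mem_univ i) hi
  -- the orbit is infinite
  have hinj : Set.InjOn (fun m : ℕ => (fun i => ((2 : ℂ) ^ m) ^ (w i) * a i)) Set.univ := by
    intro m _ m' _ hmm
    have h1 := congrFun hmm k
    simp only at h1
    have h2 := mul_right_cancel₀ hk h1
    rw [← pow_mul, ← pow_mul] at h2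
    have h3 : (2 : ℕ) ^ (m * w k) = 2 ^ (m' * w k) := by exact_mod_cast h2
    have h4 := Nat.pow_right_injective le_rfl h3
    exact Nat.eq_of_mul_eq_mul_right (hw k) h4
  have hinf := (Set.infinite_univ (α := ℕ)).image hinj
  apply hinf.mono
  rintro _ ⟨m, -, rfl⟩
  exact hsc _ (pow_ne_zero m two_ne_zero)

/-! ### Isomorphisms of coordinate rings transport singular points -/

/-- A homomorphism of coordinate rings `ℂ[x]/(q) → ℂ[x]/(p)` lifted to polynomials. -/
lemma exists_lift {p q : Poly3} (Ψ : CoordRing q →ₐ[ℂ] CoordRing p) :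
    ∃ F : Fin 3 → Poly3, ∀ g : Poly3,
      Ψ (Ideal.Quotient.mk _ g) = Ideal.Quotient.mk _ (aeval F g) := by
  choose F hF using fun i : Fin 3 =>
    Ideal.Quotient.mk_surjective (Ψ (Ideal.Quotient.mk _ (X i)))
  refine ⟨F, fun g => ?_⟩
  have h : Ψ.comp (Ideal.Quotient.mkₐ ℂ (Ideal.span {q})) =
      (Ideal.Quotient.mkₐ ℂ (Ideal.span {p})).comp (aeval F) := by
    apply MvPolynomial.algHom_ext
    intro i
    simp [hF]
  exact DFunLike.congr_fun h g

/-- The data of a pair of mutually inverse maps between two surfaces. -/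
lemma iso_data {p q : Poly3} (Ψ : CoordRing p ≃ₐ[ℂ] CoordRing q) :
    ∃ F G : Fin 3 → Poly3,
      (∃ h, aeval F q = h * p) ∧ (∃ h, aeval G p = h * q) ∧
      (∀ i, ∃ h, aeval F (G i) = X i + h * p) ∧ (∀ i, ∃ h, aeval G (F i) = X i + h * q) := by
  obtain ⟨F, hF⟩ := exists_lift (Ψ.symm : CoordRing q →ₐ[ℂ] CoordRing p)
  obtain ⟨G, hG⟩ := exists_lift (Ψ : CoordRing p →ₐ[ℂ] CoordRing q)
  have key : ∀ (r : Poly3) (g g' : Poly3), (Ideal.Quotient.mk (Ideal.span {r}) g =
      Ideal.Quotient.mk (Ideal.span {r}) g') → ∃ h, g = g' + h * r := by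
    intro r g g' hgg
    rw [Ideal.Quotient.eq, Ideal.mem_span_singleton] at hgg
    obtain ⟨h, hh⟩ := hgg
    exact ⟨h, by linear_combination hh⟩
  refine ⟨F, G, ?_, ?_, fun i => ?_, fun i => ?_⟩
  · have h1 := hF q
    have h2 : Ideal.Quotient.mk (Ideal.span {q}) q = 0 :=
      Ideal.Quotient.eq_zero_iff_mem.mpr (Ideal.mem_span_singleton_self q)
    rw [h2, map_zero] at h1
    obtain ⟨h, hh⟩ := key p _ 0 (by rw [← h1, map_zero])
    exact ⟨h, by rw [hh, zero_add]⟩
  · have h1 := hG p
    have h2 : Ideal.Quotient.mk (Ideal.span {p}) p = 0 :=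
      Ideal.Quotient.eq_zero_iff_mem.mpr (Ideal.mem_span_singleton_self p)
    rw [h2, map_zero] at h1
    obtain ⟨h, hh⟩ := key q _ 0 (by rw [← h1, map_zero])
    exact ⟨h, by rw [hh, zero_add]⟩
  · apply key
    rw [← hF]
    have h1 := hG (X i)
    rw [aeval_X] at h1
    rw [← h1]
    exact Ψ.symm_apply_apply _
  · apply key
    rw [← hG]
    have h1 := hF (X i)
    rw [aeval_X] at h1
    rw [← h1]
    exact Ψ.apply_symm_apply _

/-- A singular point is mapped to a singular point. -/
lemma sing_push {p q : Poly3} {F G : Fin 3 → Poly3}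
    (hF : ∃ h, aeval F q = h * p) (hGF : ∀ i, ∃ h, aeval F (G i) = X i + h * p)
    (a : Fin 3 → ℂ) (ha : IsSingularPt p a) : IsSingularPt q (fun i => eval a (F i)) := by
  obtain ⟨h0, ha'⟩ := ha
  obtain ⟨h, hh⟩ := hF
  refine ⟨by rw [← eval_aeval, hh, map_mul, h0, mul_zero], ?_⟩
  -- the Jacobian matrices
  set A : Matrix (Fin 3) (Fin 3) ℂ := Matrix.of fun i j => eval a (pderiv i (F j)) with hA
  set B : Matrix (Fin 3) (Fin 3) ℂ :=
    Matrix.of fun i j => eval (fun l => eval a (F l)) (pderiv i (G j)) with hB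
  have hAB : A * B = 1 := by
    ext i j
    obtain ⟨g, hg⟩ := hGF j
    have h1 := congrArg (fun g => eval a (pderiv i g)) hg
    simp only [pderiv_aeval, map_sum, map_mul, map_add, Derivation.leibniz, smul_eq_mul,
      eval_aeval, h0, ha' i, mul_zero, zero_mul, add_zero] at h1
    rw [Matrix.mul_apply]
    simp only [hA, hB, Matrix.of_apply]
    rw [← show ∑ x, eval (fun l => eval a (F l)) (pderiv x (G j)) * eval a (pderiv i (F x)) =
      ∑ x, eval a (pderiv i (F x)) * eval (fun l => eval a (F l)) (pderiv x (G j)) from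
        Finset.sum_congr rfl fun _ _ => mul_comm _ _, h1]
    by_cases hij : i = j
    · subst hij; simp
    · rw [pderiv_X_of_ne (Ne.symm hij), Matrix.one_apply_ne hij, map_zero]
  have hBA : B * A = 1 := mul_eq_one_comm.mp hAB
  set v : Fin 3 → ℂ := fun j => eval (fun l => eval a (F l)) (pderiv j q) with hv
  have hAv : A.mulVec v = 0 := by
    ext i
    have h1 := congrArg (fun g => eval a (pderiv i g)) hh
    simp only [pderiv_aeval, map_sum, map_mul, map_add, Derivation.leibniz, smul_eq_mul,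
      eval_aeval, h0, ha' i, mul_zero, zero_mul, add_zero] at h1
    simp only [Matrix.mulVec, dotProduct, hA, hv, Matrix.of_apply, Pi.zero_apply]
    rw [← h1]
    exact Finset.sum_congr rfl fun _ _ => mul_comm _ _
  have hv0 : v = 0 := by
    have : (B * A).mulVec v = 0 := by
      rw [← Matrix.mulVec_mulVec, hAv, Matrix.mulVec_zero]
    rwa [hBA, Matrix.one_mulVec] at this
  intro i
  exact congrFun hv0 i

lemma pt_back {p : Poly3} {F G : Fin 3 → Poly3}
    (hGF : ∀ i, ∃ h, aeval F (G i) = X i + h * p)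
    (a : Fin 3 → ℂ) (ha : eval a p = 0) :
    (fun i => eval (fun j => eval a (F j)) (G i)) = a := by
  funext i
  obtain ⟨h, hh⟩ := hGF i
  rw [← eval_aeval, hh, map_add, eval_X, map_mul, ha, mul_zero, add_zero]

/-- If `{p = 0}` has at least two but only finitely many singular points, then its coordinate ring
is not isomorphic to that of any quasihomogeneous surface. -/
lemma not_iso_qh {p : Poly3} (hfin : {a | IsSingularPt p a}.Finite)
    {a₀ a₁ : Fin 3 → ℂ} (hne : a₀ ≠ a₁) (h₀ : IsSingularPt p a₀) (h₁ : IsSingularPt p a₁)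
    {q : Poly3} (hq : IsQuasihomogeneous q) : IsEmpty (CoordRing p ≃ₐ[ℂ] CoordRing q) := by
  constructor
  intro Ψ
  obtain ⟨F, G, hF, hG, hGF, hFG⟩ := iso_data Ψ
  -- finitely many singular points on `q = 0`
  have hfin' : {b | IsSingularPt q b}.Finite := by
    apply Set.Finite.of_injOn (f := fun b => fun i => eval b (G i)) (t := {a | IsSingularPt p a})
      _ _ hfin
    · intro b hb
      exact sing_push hG hFG b hb
    · intro b hb b' hb' hbb
      have e1 := pt_back hFG b hb.1
      have e2 := pt_back hFG b' hb'.1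
      rw [← e1, ← e2]
      simp only at hbb
      funext i
      have := congrArg (fun c => eval c (F i)) hbb
      simpa using this
  have hs0 := sing_push hF hGF a₀ h₀
  have hs1 := sing_push hF hGF a₁ h₁
  have hdist : (fun i => eval a₀ (F i)) ≠ (fun i => eval a₁ (F i)) := by
    intro he
    apply hne
    rw [← pt_back hGF a₀ h₀.1, ← pt_back hGF a₁ h₁.1]
    funext i
    exact congrArg (fun c => eval c (G i)) he
  by_cases hz : (fun i => eval a₀ (F i)) = 0
  · have hz1 : (fun i => eval a₁ (F i)) ≠ 0 := fun h => hdist (hz.trans h.symm)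
    exact qh_sing hq _ hz1 hs1 hfin'
  · exact qh_sing hq _ hz hs0 hfin'

/-- A polynomial automorphism carrying `p` to `q` induces an isomorphism of coordinate rings. -/
lemma iso_of_aut (p : Poly3) (Φ : Poly3 ≃ₐ[ℂ] Poly3) :
    Nonempty (CoordRing p ≃ₐ[ℂ] CoordRing (Φ p)) := by
  refine ⟨Ideal.quotientEquivAlg (Ideal.span {p}) (Ideal.span {Φ p}) Φ ?_⟩
  rw [Ideal.map_span]
  simp

/-! ### The surfaces -/

lemma eval_surf (f : Polynomial ℂ) (k : ℕ) (a : Fin 3 → ℂ) :
    eval a (surf f k) = f.eval (a 0) * a 2 - a 1 ^ k := by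
  have h : eval a (Polynomial.aeval (X 0 : Poly3) f) = f.eval (a 0) := by
    have := Polynomial.hom_eval₂ f (algebraMap ℂ Poly3) (eval a) (X 0)
    rw [Polynomial.aeval_def, this]
    rw [eval_X]
    have h2 : (eval a).comp (algebraMap ℂ Poly3) = RingHom.id ℂ := by
      ext c; simp
    rw [h2]
    simp [Polynomial.eval₂_id]
  simp [surf, h]

lemma eval_aeval_X0 (f : Polynomial ℂ) (a : Fin 3 → ℂ) :
    eval a (Polynomial.aeval (X 0 : Poly3) f) = f.eval (a 0) := by
  have := Polynomial.hom_eval₂ f (algebraMap ℂ Poly3) (eval a) (X 0)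
  rw [Polynomial.aeval_def, this]
  rw [eval_X]
  have h2 : (eval a).comp (algebraMap ℂ Poly3) = RingHom.id ℂ := by
    ext c; simp
  rw [h2]
  simp [Polynomial.eval₂_id]

lemma eval_pderiv_surf (f : Polynomial ℂ) (k : ℕ) (a : Fin 3 → ℂ) :
    eval a (pderiv 0 (surf f k)) = f.derivative.eval (a 0) * a 2 ∧
    eval a (pderiv 1 (surf f k)) = -(k * a 1 ^ (k - 1)) ∧
    eval a (pderiv 2 (surf f k)) = f.eval (a 0) := by
  have h10 : pderiv (1 : Fin 3) (X 0 : Poly3) = 0 := pderiv_X_of_ne (by decide)
  have h20 : pderiv (2 : Fin 3) (X 0 : Poly3) = 0 := pderiv_X_of_ne (by decide)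
  have h01 : pderiv (0 : Fin 3) (X 1 : Poly3) = 0 := pderiv_X_of_ne (by decide)
  have h21 : pderiv (2 : Fin 3) (X 1 : Poly3) = 0 := pderiv_X_of_ne (by decide)
  have h02 : pderiv (0 : Fin 3) (X 2 : Poly3) = 0 := pderiv_X_of_ne (by decide)
  have h12 : pderiv (1 : Fin 3) (X 2 : Poly3) = 0 := pderiv_X_of_ne (by decide)
  have hd : ∀ i : Fin 3, pderiv i (Polynomial.aeval (X 0 : Poly3) f) =
      Polynomial.aeval (X 0 : Poly3) f.derivative * pderiv i (X 0 : Poly3) := by
    intro i
    rw [Derivation.map_aeval, smul_eq_mul]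
  refine ⟨?_, ?_, ?_⟩
  · simp only [surf, map_sub, Derivation.leibniz, Derivation.leibniz_pow, hd, h01, h02,
      pderiv_X_self, smul_eq_mul, map_mul, map_add, eval_X, eval_aeval_X0]
    simp
    ring
  · simp only [surf, map_sub, Derivation.leibniz, Derivation.leibniz_pow, hd, h10, h12,
      pderiv_X_self, smul_eq_mul, map_mul, map_add, eval_X, eval_aeval_X0]
    simp
  · simp only [surf, map_sub, Derivation.leibniz, Derivation.leibniz_pow, hd, h20, h21,
      pderiv_X_self, smul_eq_mul, map_mul, map_add, eval_X, eval_aeval_X0]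
    simp

lemma sing_surf {f : Polynomial ℂ} (hf : Squarefree f) {k : ℕ} (hk : 2 ≤ k) (a : Fin 3 → ℂ) :
    IsSingularPt (surf f k) a ↔ f.eval (a 0) = 0 ∧ a 1 = 0 ∧ a 2 = 0 := by
  obtain ⟨e0, e1, e2⟩ := eval_pderiv_surf f k a
  constructor
  · rintro ⟨h0, h⟩
    have d0 := h 0
    have d1 := h 1
    have d2 := h 2
    rw [e0] at d0
    rw [e1] at d1
    rw [e2] at d2
    have hk0 : (k : ℂ) ≠ 0 := by
      have : k ≠ 0 := by omega
      exact_mod_cast this
    have ha1 : a 1 = 0 := by
      have h2 := neg_eq_zero.mp d1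
      rcases mul_eq_zero.mp h2 with h3 | h3
      · exact absurd h3 hk0
      · exact pow_eq_zero_iff (by omega) |>.mp h3
    have hsep : f.Separable := (PerfectField.separable_iff_squarefree).mpr hf
    have hder : f.derivative.eval (a 0) ≠ 0 := by
      intro hz
      obtain ⟨u, v, huv⟩ := hsep
      have := congrArg (Polynomial.eval (a 0)) huv
      simp [d2, hz] at this
    refine ⟨d2, ha1, ?_⟩
    rcases mul_eq_zero.mp d0 with h3 | h3
    · exact absurd h3 hder
    · exact h3
  · rintro ⟨h0, h1, h2⟩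
    refine ⟨?_, fun i => ?_⟩
    · rw [eval_surf, h0, h1, zero_mul, zero_pow (by omega), sub_zero]
    · fin_cases i
      · simpa [h2] using e0
      · have : k - 1 ≠ 0 := by omega
        simpa [h1, this] using e1
      · simpa [h0] using e2

/-- the singular point over a root of `f` -/
def spt (c : ℂ) : Fin 3 → ℂ := ![c, 0, 0]

lemma sing_set {f : Polynomial ℂ} (hf : Squarefree f) {k : ℕ} (hk : 2 ≤ k) :
    {a | IsSingularPt (surf f k) a} = spt '' (f.roots.toFinset : Set ℂ) := by
  have hf0 : f ≠ 0 := hf.ne_zero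
  ext a
  simp only [Set.mem_ofPred_eq, sing_surf hf hk, Set.mem_image, Finset.mem_coe,
    Multiset.mem_toFinset, Polynomial.mem_roots hf0, Polynomial.IsRoot]
  constructor
  · rintro ⟨h0, h1, h2⟩
    refine ⟨a 0, h0, ?_⟩
    funext i
    fin_cases i <;> simp [spt, h1, h2]
  · rintro ⟨c, hc, rfl⟩
    simp [spt, hc]

lemma spt_inj : Function.Injective spt := by
  intro c d h
  have := congrFun h 0
  simpa [spt] using this

lemma card_roots {f : Polynomial ℂ} (hf : Squarefree f) :
    f.roots.toFinset.card = f.natDegree := by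
  have hsep : f.Separable := (PerfectField.separable_iff_squarefree).mpr hf
  have hnd : f.roots.Nodup := Polynomial.nodup_roots hsep
  rw [Multiset.toFinset_card_of_nodup hnd]
  exact (Polynomial.splits_iff_card_roots.mp (IsAlgClosed.splits f))

lemma sing_finite {f : Polynomial ℂ} (hf : Squarefree f) {k : ℕ} (hk : 2 ≤ k) :
    {a | IsSingularPt (surf f k) a}.Finite := by
  rw [sing_set hf hk]
  exact (Finset.finite_toSet _).image _

lemma sing_ncard {f : Polynomial ℂ} (hf : Squarefree f) {k : ℕ} (hk : 2 ≤ k) :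
    {a | IsSingularPt (surf f k) a}.ncard = f.natDegree := by
  rw [sing_set hf hk, Set.ncard_image_of_injective _ spt_inj, Set.ncard_coe_finset, card_roots hf]

lemma isolated_surf {f : Polynomial ℂ} (hf : Squarefree f) {k : ℕ} (hk : 2 ≤ k)
    (a : Fin 3 → ℂ) (h : IsSingularPt (surf f k) a) : IsIsolatedSingularPt (surf f k) a := by
  have hfin : ({a | IsSingularPt (surf f k) a} \ {a}).Finite :=
    (sing_finite hf hk).subset Set.sdiff_subset
  refine ⟨h, _, hfin.isClosed.isOpen_compl.mem_nhds (by simp), ?_⟩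
  intro b hb hba hsb
  exact hb ⟨hsb, by simpa using hba⟩

/-! irreducibility -/

lemma vars_aeval_X0 (f : Polynomial ℂ) :
    (2 : Fin 3) ∉ (Polynomial.aeval (X 0 : Poly3) f).vars := by
  intro h
  rw [Polynomial.aeval_eq_sum_range] at h
  have h1 := vars_sum_subset _ _ h
  rw [Finset.mem_biUnion] at h1
  obtain ⟨i, _, hi⟩ := h1
  rw [smul_eq_C_mul] at hi
  have h2 := vars_mul _ _ hi
  rw [Finset.mem_union, vars_C] at h2
  rcases h2 with h2 | h2
  · simp at h2
  · have h3 := vars_pow _ _ h2
    rw [vars_X, Finset.mem_singleton] at h3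
    exact absurd h3 (by decide)

lemma irreducible_surf {f : Polynomial ℂ} (hf : f ≠ 0) (k : ℕ) :
    Irreducible (surf f k) := by
  have h : surf f k = Polynomial.aeval (X 0 : Poly3) f * X 2 + (-(X 1 ^ k)) := by
    rw [surf, sub_eq_add_neg]
  have hf' : Polynomial.aeval (X 0 : Poly3) f ≠ 0 := by
    intro h0
    apply hf
    apply Polynomial.funext
    intro c
    have := congrArg (eval (fun _ : Fin 3 => c)) h0
    rw [eval_aeval_X0] at this
    simpa using this
  rw [h]
  apply irreducible_mul_X_add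
  · exact hf'
  · exact vars_aeval_X0 f
  · intro h1
    rw [vars_neg] at h1
    have h3 := vars_pow _ _ h1
    rw [vars_X, Finset.mem_singleton] at h3
    exact absurd h3 (by decide)
  · rw [IsRelPrime.neg_right_iff]
    apply IsRelPrime.pow_right
    apply IsRelPrime.symm
    rw [(MvPolynomial.X_prime (i := (1 : Fin 3)) (R := ℂ)).irreducible.isRelPrime_iff_not_dvd]
    rintro ⟨g, hg⟩
    apply hf
    apply Polynomial.funext
    intro c
    have := congrArg (eval (fun i : Fin 3 => if i = 0 then c else 0)) hg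
    rw [eval_aeval_X0, map_mul, eval_X] at this
    simpa using this

/-! contractibility -/

/-- the surface -/
abbrev Z (f : Polynomial ℂ) (k : ℕ) : Type := {x : Fin 3 → ℂ // eval x (surf f k) = 0}

/-- the scaled point `(x_0, t * x_1, t ^ k * x_2)` -/
def sc (k : ℕ) (t : ℂ) (x : Fin 3 → ℂ) : Fin 3 → ℂ := ![x 0, t * x 1, t ^ k * x 2]

lemma sc_mem {f : Polynomial ℂ} {k : ℕ} (t : ℂ) (x : Fin 3 → ℂ) (hx : eval x (surf f k) = 0) :
    eval (sc k t x) (surf f k) = 0 := by
  rw [eval_surf] at hx ⊢
  simp only [sc, Matrix.cons_val_zero, Matrix.cons_val_one, Matrix.cons_val, mul_pow]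
  linear_combination t ^ k * hx

lemma sc_one (k : ℕ) (x : Fin 3 → ℂ) : sc k 1 x = x := by
  funext i
  fin_cases i <;> simp [sc]

/-- the point `(s * x_0, 0, 0)` -/
def li (s : ℂ) (x : Fin 3 → ℂ) : Fin 3 → ℂ := ![s * x 0, 0, 0]

lemma li_mem {f : Polynomial ℂ} {k : ℕ} (hk : 1 ≤ k) (s : ℂ) (x : Fin 3 → ℂ) :
    eval (li s x) (surf f k) = 0 := by
  rw [eval_surf]
  have : k ≠ 0 := by omega
  simp [li, this]

lemma sc_zero {k : ℕ} (hk : 1 ≤ k) (x : Fin 3 → ℂ) : sc k 0 x = li 1 x := by
  have : k ≠ 0 := by omega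
  funext i
  fin_cases i <;> simp [sc, li, this]

lemma li_zero (x : Fin 3 → ℂ) : li 0 x = 0 := by
  funext i
  fin_cases i <;> simp [li]

lemma continuous_sc (k : ℕ) : Continuous fun q : ℂ × (Fin 3 → ℂ) => sc k q.1 q.2 := by
  refine continuous_pi fun i => ?_
  fin_cases i
  · simp only [sc, Fin.zero_eta, Matrix.cons_val_zero]; fun_prop
  · simp only [sc, Fin.mk_one, Matrix.cons_val_one, Matrix.cons_val_zero]; fun_prop
  · simp only [sc, Fin.reduceFinMk, Matrix.cons_val]; fun_prop

lemma continuous_li : Continuous fun q : ℂ × (Fin 3 → ℂ) => li q.1 q.2 := by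
  refine continuous_pi fun i => ?_
  fin_cases i
  · simp only [li, Fin.zero_eta, Matrix.cons_val_zero]; fun_prop
  · simp only [li, Fin.mk_one, Matrix.cons_val_one, Matrix.cons_val_zero]; fun_prop
  · simp only [li, Fin.reduceFinMk, Matrix.cons_val]; fun_prop

/-- the affine parameter `1 - t` -/
def par (t : unitInterval) : ℂ := 1 - ((t : ℝ) : ℂ)

lemma par_zero : par 0 = 1 := by simp [par]
lemma par_one : par 1 = 0 := by simp [par]
lemma continuous_par : Continuous par := by unfold par; fun_prop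

lemma contractible_surf (f : Polynomial ℂ) {k : ℕ} (hk : 1 ≤ k) :
    ContractibleSpace {x : Fin 3 → ℂ // eval x (surf f k) = 0} := by
  have hpp : Continuous fun q : unitInterval × Z f k => (par q.1, (q.2.1 : Fin 3 → ℂ)) :=
    (continuous_par.comp continuous_fst).prodMk (continuous_subtype_val.comp continuous_snd)
  let prLine : C(Z f k, Z f k) :=
    { toFun := fun x => ⟨li 1 x.1, li_mem hk _ _⟩
      continuous_toFun := by
        apply Continuous.subtype_mk
        exact continuous_li.comp (by fun_prop : Continuous fun x : Z f k => ((1 : ℂ), x.1)) }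
  let orig : Z f k := ⟨0, by rw [← li_zero (0 : Fin 3 → ℂ)]; exact li_mem hk _ _⟩
  rw [contractible_iff_id_nullhomotopic]
  have h1 : (ContinuousMap.id (Z f k)).Homotopic prLine := by
    refine ⟨⟨⟨fun q => ⟨sc k (par q.1) q.2.1, sc_mem _ _ q.2.2⟩, ?_⟩, ?_, ?_⟩⟩
    · have h : Continuous fun q : unitInterval × Z f k => (sc k (par q.1) q.2.1 : Fin 3 → ℂ) :=
        Continuous.comp (g := fun q : ℂ × (Fin 3 → ℂ) => sc k q.1 q.2)
          (f := fun q : unitInterval × Z f k => (par q.1, (q.2.1 : Fin 3 → ℂ)))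
          (continuous_sc k) hpp
      exact h.subtype_mk _
    · intro x
      apply Subtype.ext
      simp only [par_zero, sc_one, ContinuousMap.id_apply]
    · intro x
      apply Subtype.ext
      simp only [par_one, sc_zero hk, prLine, ContinuousMap.coe_mk]
  have h2 : prLine.Homotopic (ContinuousMap.const (Z f k) orig) := by
    refine ⟨⟨⟨fun q => ⟨li (par q.1) q.2.1, li_mem hk _ _⟩, ?_⟩, ?_, ?_⟩⟩
    · have h : Continuous fun q : unitInterval × Z f k => (li (par q.1) q.2.1 : Fin 3 → ℂ) :=
        Continuous.comp (g := fun q : ℂ × (Fin 3 → ℂ) => li q.1 q.2)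
          (f := fun q : unitInterval × Z f k => (par q.1, (q.2.1 : Fin 3 → ℂ)))
          continuous_li hpp
      exact h.subtype_mk _
    · intro x
      apply Subtype.ext
      simp only [par_zero, prLine, ContinuousMap.coe_mk]
    · intro x
      apply Subtype.ext
      simp only [par_one, li_zero, orig, ContinuousMap.const_apply]
  exact ⟨orig, h1.trans h2⟩

end

/-- For every squarefree `f ∈ ℂ[T]` of degree at least two and every `k ≥ 2`, the surface
`f(x_0) x_2 = x_1 ^ k` in `ℂ³` is irreducible and contractible, has exactly `deg f` singular points,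
all of them isolated, and it is not isomorphic (even as an abstract variety) to a surface defined by
a quasihomogeneous polynomial; in particular its equation does not become quasihomogeneous under
any polynomial automorphism of `ℂ³`. -/
theorem result : ∀ f : Polynomial ℂ, Squarefree f → 2 ≤ f.natDegree → ∀ k : ℕ, 2 ≤ k →
    Irreducible (surf f k) ∧
    ContractibleSpace {x : Fin 3 → ℂ // eval x (surf f k) = 0} ∧
    {a | IsSingularPt (surf f k) a}.ncard = f.natDegree ∧
    (∀ a, IsSingularPt (surf f k) a → IsIsolatedSingularPt (surf f k) a) ∧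
    (∀ q : Poly3, IsQuasihomogeneous q →
      IsEmpty (CoordRing (surf f k) ≃ₐ[ℂ] CoordRing q)) ∧
    ∀ Φ : Poly3 ≃ₐ[ℂ] Poly3, ¬ IsQuasihomogeneous (Φ (surf f k)) := by
  intro f hf hd k hk
  have hfin := sing_finite hf hk
  have hcard := sing_ncard hf hk
  obtain ⟨a₀, a₁, h₀, h₁, hne⟩ : ∃ a₀ a₁, IsSingularPt (surf f k) a₀ ∧
      IsSingularPt (surf f k) a₁ ∧ a₀ ≠ a₁ := by
    have h2 : 1 < {a | IsSingularPt (surf f k) a}.ncard := by omega
    obtain ⟨a₀, a₁, h₀, h₁, hne⟩ := (Set.one_lt_ncard_iff hfin).mp h2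
    exact ⟨a₀, a₁, h₀, h₁, hne⟩
  have hiso : ∀ q : Poly3, IsQuasihomogeneous q →
      IsEmpty (CoordRing (surf f k) ≃ₐ[ℂ] CoordRing q) :=
    fun q hq => not_iso_qh hfin hne h₀ h₁ hq
  refine ⟨irreducible_surf hf.ne_zero k, contractible_surf f (by omega), hcard,
    isolated_surf hf hk, hiso, ?_⟩
  intro Φ hΦ
  obtain ⟨e⟩ := iso_of_aut (surf f k) Φ
  exact (hiso _ hΦ).false e

end Pool.Agent.Results.MP_c4712b_ag.ManyNodesFamily
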